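import Mathlib

open PowerSeries Finset

namespace Pool.Agent.Results.MP_7b566e_nt.Thirteen

/-- The series `1 / (1 - x ^ d) = 1 + x ^ d + x ^ (2 d) + ⋯`. -/
noncomputable def geom (d : ℕ) : ℤ⟦X⟧ := PowerSeries.mk fun j => if d ∣ j then 1 else 0

/-- `A m k n`: the coefficient of `x ^ n` in `∏ i, (1 - x ^ m ^ i) ^ (-k)`; the factors with
`i > n` are `1` modulo `x ^ (n + 1)` and are left out. -/
noncomputable def A (m k n : ℕ) : ℤ := coeff n (∏ i ∈ range (n + 1), geom (m ^ i) ^ k)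

def c (d j : ℕ) : ℤ :=
  if d ∣ j then ((767 + j / d).descFactorial (j / d) / (j / d).factorial : ℕ) else 0

lemma coeff_pow (d : ℕ) (hd : d ≠ 0) (j : ℕ) : coeff j (geom d ^ 768) = c d j := by
  have : geom d = expand d hd (PowerSeries.mk 1) := by
    ext j; simp [geom, coeff_expand]
  rw [this, ← map_pow, mk_one_pow_eq_mk_choose_add, coeff_expand, c, coeff_mk,
    ← Nat.choose_eq_descFactorial_div_factorial, Nat.choose_symm_add]

lemma A_eq (n : ℕ) (h1 : 2 ≤ n) (h2 : n < 300) : A 13 768 n =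
    ∑ p ∈ antidiagonal n, c 1 p.1 * ∑ q ∈ antidiagonal p.2, c 13 q.1 * c 169 q.2 := by
  have h : X ^ 300 ∣ ∏ i ∈ Ico 3 (n + 1), geom (13 ^ i) ^ 768 - 1 := by
    refine prod_induction _ (fun f : ℤ⟦X⟧ => X ^ 300 ∣ f - 1) (fun a b ha hb => ?_) (by simp)
      fun i hi => ?_
    · have : a * b - 1 = (a - 1) * b + (b - 1) := by ring
      rw [this]
      exact (ha.mul_right _).add hb
    · refine Dvd.dvd.trans ?_ (sub_one_dvd_pow_sub_one _ _)
      rw [X_pow_dvd_iff]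
      intro m hm
      have : 13 ^ 3 ≤ 13 ^ i := Nat.pow_le_pow_right (by norm_num) (mem_Ico.1 hi).1
      rw [map_sub, geom, coeff_mk, coeff_one]
      rcases m.eq_zero_or_pos with rfl | h0
      · simp
      · rw [if_neg fun h => by have := Nat.le_of_dvd h0 h; omega, if_neg h0.ne', sub_zero]
  rw [A, ← prod_range_mul_prod_Ico _ (by omega : 3 ≤ n + 1)]
  have := X_pow_dvd_iff.1 (h.mul_left (∏ i ∈ range 3, geom (13 ^ i) ^ 768)) n h2
  rw [mul_sub, map_sub, sub_eq_zero, mul_one] at this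
  rw [this, prod_range_succ, prod_range_succ, prod_range_one, mul_assoc, coeff_mul]
  simp only [coeff_mul, coeff_pow _ (pow_ne_zero _ (by norm_num : 13 ≠ 0))]
  rfl

theorem result :
    (¬ ∀ p u s : ℕ, p.Prime → 3 ≤ p → 2 ≤ u → u ≤ p - 1 → 1 ≤ s → ∀ n, u * p ^ s ≤ n →
      emultiplicity (p : ℤ) (A p ((p - 1) * (u * p ^ s - 1)) n) = 1 ∨
      emultiplicity (p : ℤ) (A p ((p - 1) * (u * p ^ s - 1)) n) = 2) ∧
    (¬ ∀ p u s : ℕ, p.Prime → 3 ≤ p → 2 ≤ u → u ≤ p - 1 → 1 ≤ s → ∀ n, 1 ≤ n → ∀ j < p,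
      emultiplicity (p : ℤ) (A p ((p - 1) * (u * p ^ s - 1)) (p * n + j)) =
      emultiplicity (p : ℤ) (A p ((p - 1) * (u * p ^ s - 1)) (p * n))) := by
  have h1 : (13 : ℤ) ^ 4 ∣ A 13 768 221 := by
    rw [A_eq _ (by norm_num) (by norm_num)]; decide +kernel
  have h2 : ¬ (13 : ℤ) ^ 4 ∣ A 13 768 222 := by
    rw [A_eq _ (by norm_num) (by norm_num)]; decide +kernel
  rw [pow_dvd_iff_le_emultiplicity] at h1 h2
  refine ⟨fun h => ?_, fun h => ?_⟩
  · rcases h 13 5 1 (by norm_num) (by norm_num) (by norm_num) (by norm_num) le_rfl 221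
      (by norm_num) with h | h <;>
    · norm_num at h
      rw [h] at h1
      norm_num at h1
  · have := h 13 5 1 (by norm_num) (by norm_num) (by norm_num) (by norm_num) le_rfl 17
      (by norm_num) 1 (by norm_num)
    norm_num at this
    exact h2 (h1.trans this.ge)

end Pool.Agent.Results.MP_7b566e_nt.Thirteen
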